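import Pool.Agent.Helper44.FrobHW.Recip

/-!
# Jordan blocks of Frobenius and the characteristic polynomial of the Hasse-Witt matrix

`TwistedH2 p a ℓ V` lists properties of the Frobenius endomorphism `F = Fr / q`, `q = p ^ a`, of
`V = H²(X̄, ℚ_ℓ(1))` of a smooth projective surface over a field with `q` elements.
-/

open Polynomial Module

namespace Pool.Agent.Results.MP_1fe969_ag.HasseWitt

open Pool.Agent.Helper40.Frob Pool.Agent.Helper44.FrobHW

/-- Properties of Frobenius on `V = H²(X̄, ℚ_ℓ(1))`, `q = p ^ a`. -/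
structure TwistedH2 (p a ℓ : ℕ) [Fact ℓ.Prime] (V : Type) [AddCommGroup V] [Module ℚ_[ℓ] V]
    [FiniteDimensional ℚ_[ℓ] V] where
  /-- the cup product pairing -/
  B : LinearMap.BilinForm ℚ_[ℓ] V
  nondeg : B.Nondegenerate
  symm : ∀ x y, B x y = B y x
  /-- the Frobenius divided by `q` -/
  F : End ℚ_[ℓ] V
  isometry : ∀ x y, B (F x) (F y) = B x y
  /-- the characteristic polynomial of `q F` is integral -/
  R : ℤ[X]
  charpoly : R.map (Int.castRingHom ℚ_[ℓ]) = (((p ^ a : ℕ) : ℚ_[ℓ]) • F).charpoly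
  /-- the Weil conjectures -/
  weil : ∀ z : ℂ, aeval z R = 0 → ‖z‖ = (p : ℝ) ^ a

variable {p a ℓ : ℕ} [Fact ℓ.Prime] {V : Type} [AddCommGroup V] [Module ℚ_[ℓ] V]
  [FiniteDimensional ℚ_[ℓ] V]

/-- the Newton polygon of `R` has the slope `0` exactly `K` times and all other slopes are at
least `1` (slopes normalised by `q`) -/
def TwistedH2.NearOrdinary (H : TwistedH2 p a ℓ V) (K : ℕ) : Prop :=
  K ≤ H.R.natDegree ∧ ¬ (p : ℤ) ∣ H.R.coeff (H.R.natDegree - K) ∧
    ∀ j, K ≤ j → j ≤ H.R.natDegree → ((p : ℤ) ^ a) ^ (j - K) ∣ H.R.coeff (H.R.natDegree - j)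

/-- every irreducible factor different from `X` of the reduction of `R` modulo `p` has
multiplicity at most `m` -/
def TwistedH2.HasseWittMult (H : TwistedH2 p a ℓ V) (m : ℕ) : Prop :=
  ∀ g : (ZMod p)[X], Irreducible g → ¬ g ∣ X → ¬ g ^ (m + 1) ∣ H.R.map (Int.castRingHom (ZMod p))

theorem result [Fact p.Prime] (ha : 0 < a) (H : TwistedH2 p a ℓ V) (K m : ℕ)
    (hK : H.NearOrdinary K) (hm : H.HasseWittMult m) :
    -- Jordan blocks at eigenvalues that are not roots of unity have size at most `m`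
    (∀ Q : ℚ[X], Irreducible Q → (∀ z : ℂ, aeval z Q = 0 → ∀ n : ℕ, 0 < n → z ^ n ≠ 1) →
      ∀ (n : ℕ) (x : V), ((aeval H.F (Q.map (algebraMap ℚ ℚ_[ℓ]))) ^ n) x = 0 →
      ((aeval H.F (Q.map (algebraMap ℚ ℚ_[ℓ]))) ^ m) x = 0) ∧
    -- semisimplicity for `m = 1`
    (m = 1 → ∀ (N : Submodule ℚ_[ℓ] V) (M : ℕ), 0 < M → (∀ x ∈ N, (H.F ^ M) x = x) →
      (H.B.restrict N).Nondegenerate →
      (finrank ℚ_[ℓ] V ≤ finrank ℚ_[ℓ] N + 2 * K + 2 ∨ ∀ k : ℕ, 0 < k →
        finrank ℚ_[ℓ] ((H.F ^ k).maxGenEigenspace 1) ≤ finrank ℚ_[ℓ] N + 2) →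
      H.F.IsSemisimple) := by
  have hp : p.Prime := Fact.out
  obtain ⟨hK, hK1, hK2⟩ := hK
  have hq : 0 < p ^ a := pow_pos hp.pos a
  have hinj : Function.Injective (Int.castRingHom ℚ_[ℓ]) := Int.cast_injective
  have hRm : H.R.Monic := by
    have h1 : (H.R.map (Int.castRingHom ℚ_[ℓ])).Monic := by
      rw [H.charpoly]
      exact LinearMap.charpoly_monic _
    exact monic_of_injective hinj h1
  have hRd : H.R.natDegree = finrank ℚ_[ℓ] V := by
    rw [← natDegree_map_eq_of_injective hinj, H.charpoly, LinearMap.charpoly_natDegree]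
  have hPm : (tw (p ^ a) H.R).Monic := tw_monic hq hRm
  have hPc : (tw (p ^ a) H.R).map (algebraMap ℚ ℚ_[ℓ]) = H.F.charpoly :=
    tw_charpoly H.F hq H.charpoly
  have hPF : ev H.F (tw (p ^ a) H.R) = 0 := by
    unfold ev
    rw [hPc]
    exact H.F.aeval_self_charpoly
  -- roots of the twisted polynomial
  have hW : ∀ z : ℂ, aeval z (tw (p ^ a) H.R) = 0 → ‖z‖ = 1 := by
    intro z hz
    have h1 : aeval (((p ^ a : ℕ) : ℂ) * z) H.R = 0 := by
      unfold tw at hz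
      rw [map_mul, aeval_C, aeval_comp, map_mul, aeval_C, aeval_X, mul_eq_zero] at hz
      rcases hz with hz | hz
      · exfalso
        rw [map_eq_zero] at hz
        have : ((p ^ a : ℕ) : ℚ) ≠ 0 := by exact_mod_cast hq.ne'
        exact inv_ne_zero (pow_ne_zero _ this) hz
      · have h2 : (algebraMap ℚ ℂ) ((p ^ a : ℕ) : ℚ) = ((p ^ a : ℕ) : ℂ) := by simp
        rw [h2] at hz
        have h3 := aeval_map_algebraMap (A := ℚ) (((p ^ a : ℕ) : ℂ) * z) H.R
        rw [← h3]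
        exact hz
    have h2 := H.weil _ h1
    rw [norm_mul] at h2
    have h3 : ‖((p ^ a : ℕ) : ℂ)‖ = (p : ℝ) ^ a := by
      rw [Complex.norm_natCast]
      push_cast
      rfl
    rw [h3] at h2
    have h4 : (p : ℝ) ^ a ≠ 0 := pow_ne_zero _ (by exact_mod_cast hp.ne_zero)
    exact mul_left_cancel₀ h4 (by rw [h2, mul_one])
  have part1 : ∀ Q : ℚ[X], Irreducible Q → NoUnityRoot Q →
      ∀ (n : ℕ) (x : V), (ev H.F Q ^ n) x = 0 → (ev H.F Q ^ m) x = 0 := by
    intro Q hQ hQ1 n x hx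
    exact nilp_le hPm.ne_zero hPF hQ
      (fun e he => modp_bound hp ha hRm hW hK hK1 hK2 hm hQ hQ1 he) n x hx
  refine ⟨fun Q hQ hQ1 n x hx => part1 Q hQ hQ1 n x hx, ?_⟩
  rintro rfl N M hM hN hNn hdim
  have hdim' : ∀ k : ℕ, 0 < k →
      finrank ℚ_[ℓ] ((H.F ^ k).maxGenEigenspace 1) ≤ finrank ℚ_[ℓ] N + 2 := by
    rcases hdim with hKd | hdim
    · intro k hk
      obtain ⟨G, T, j, hGT, hG, hT⟩ := exists_split (X ^ k - 1) (tw (p ^ a) H.R) hPm.ne_zero
      have h1 := finrank_genEig_le H.F hPc hGT hG hT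
      have h2 := cyc_bound hp ha hRm hW hK hK1 hK2 (G := G) ⟨T, hGT⟩ hk hG
      omega
    · exact hdim
  apply semisimple_of hPm.ne_zero hPF
  intro Q hQ hQP x hx
  by_cases hQ1 : NoUnityRoot Q
  · have := part1 Q hQ hQ1 2 x (by rw [pow_two, End.mul_apply]; exact hx)
    rwa [pow_one] at this
  · exact tate_part H.nondeg H.symm H.isometry N hM hN hNn hdim' hQ hQ1 x hx

end Pool.Agent.Results.MP_1fe969_ag.HasseWitt
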