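import Pool.Agent.Helper44.PS.OneFib

/-!
# One fibre decides: semisimplicity of Frobenius in families, all primes at once

For a smooth projective family of surfaces over a normal variety `S` over `𝔽_q`, geometrically connected,
the fundamental group `P` of `S` acts on `V_ℓ = H²(1)` of the geometric generic fibre, semisimply under
the geometric fundamental group `A` (Deligne), for all `ℓ ≠ p`; the characteristic polynomials of the
Frobenius elements (which are dense in `P`) have coefficients in `E = ℚ` and do not depend on `ℓ`; if `z`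
is the Frobenius of a zero cycle of degree one then the Frobenius elements of the points of `S` over the
extension of degree `n` lie in `z ^ n A`.

There is a finite Galois covering of `S` (the open normal subgroup `N`; it depends only on the family,
not on `ℓ`) such that for every class `c` of its group, every `ℓ` and every eigenvalue `l` there is a
generic Jordan type `lam` (`lam j` is the number of Jordan blocks of size larger than `j`): it is the
Jordan type of Frobenius at `l` on almost all fibres with Frobenius in `c`, and it is contained in the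
Jordan type of Frobenius at `l` on EVERY fibre with Frobenius in `c`.

Let `w ≥ 0`, and look at the eigenvalues `k` with `k ^ w = 1` only: these are ALL eigenvalues if `w = 0`,
and the roots of unity of order dividing `w` if `w > 0`.  ONE fibre on which Frobenius is semisimple at
these eigenvalues forces this for all `ℓ` at once on the fibres of its class, with LINEAR SAVING and over
every finite extension: for every prime `ℓ` there is `C` such that for all `n ≥ 1` and `m` the exceptional
Frobenius elements lie, modulo `ℓ ^ m`, in a part of `z ^ n A` of proportion at most `C ℓ ^ (-m)`.  By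
Deligne's theorem there are at most `O(q ^ (n (d - 1 / (D + 1))))` exceptional fibres over the extension
of degree `n` (`d = dim S`, `D` the dimension of the geometric monodromy group).  For `w > 0` the one
fibre may be any fibre which satisfies the Tate conjecture over the extensions of degree dividing `w`.
(The `p` below is the prime `ℓ`.)
-/

set_option autoImplicit false

namespace Pool.Agent.Results.MP_1fe969_ag.OneFibre

open Polynomial

/-- Every subspace stable under the endomorphisms in `S` has a complement stable under them. -/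
def ActsSemisimply {K V : Type*} [Field K] [AddCommGroup V] [Module K V]
    (S : Set (Module.End K V)) : Prop :=
  ∀ W : Submodule K V, (∀ A ∈ S, ∀ v ∈ W, A v ∈ W) →
    ∃ W' : Submodule K V, (∀ A ∈ S, ∀ v ∈ W', A v ∈ W') ∧ IsCompl W W'

/-- The closed subgroup generated by `A` and `x` is open. -/
def GenerateOpen {P : Type*} [Group P] [TopologicalSpace P] [IsTopologicalGroup P]
    (A : Subgroup P) (x : P) : Prop :=
  IsOpen ((A ⊔ Subgroup.zpowers x).topologicalClosure : Set P)

/-- The number of Jordan blocks of `T` at the eigenvalue `l` of size larger than `j`. -/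
noncomputable def blocks {K V : Type*} [Field K] [AddCommGroup V] [Module K V]
    (T : Module.End K V) (l : K) (j : ℕ) : ℕ :=
  Module.finrank K (LinearMap.ker (T - algebraMap K (Module.End K V) l) ⊓
    LinearMap.range ((T - algebraMap K (Module.End K V) l) ^ j) : Submodule K V)

/-- `T` is semisimple at all eigenvalues `k` with `k ^ w = 1` (at all eigenvalues if `w = 0`). -/
def SemisimpleAt {K V : Type*} [Field K] [AddCommGroup V] [Module K V] (w : ℕ)
    (T : Module.End K V) : Prop :=
  ∀ k : K, k ^ w = 1 → blocks T k 1 = 0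

/-- For every `ε > 0` at most `ε [P : M]` cosets of some open normal subgroup `M` meet `Z`. -/
def Few {P : Type*} [Group P] [TopologicalSpace P] (Z : Set P) : Prop :=
  ∀ ε : ℝ, 0 < ε → ∃ M : Subgroup P, M.Normal ∧ IsOpen (M : Set P) ∧
    (Nat.card {d : P ⧸ M // ∃ y ∈ Z, (y : P ⧸ M) = d} : ℝ) ≤ ε * Nat.card (P ⧸ M)

/-- The number of matrices `sigma x` modulo `p ^ m` for `x` in `Z`. -/
noncomputable def numMod {P : Type*} {p r : ℕ} [Fact p.Prime]
    (sigma : P → Matrix (Fin r) (Fin r) ℤ_[p]) (m : ℕ) (Z : Set P) : ℕ :=
  ((fun x => (sigma x).map (PadicInt.toZModPow m)) '' Z).ncard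

/-- `lam` is the generic Jordan type at `l` in the coset `c`. -/
structure IsGeneric {K V P : Type*} [Field K] [AddCommGroup V] [Module K V] [Group P]
    [TopologicalSpace P] [IsTopologicalGroup P] (rho : P →* Module.End K V) (c : Set P) (l : K)
    (lam : ℕ → ℕ) : Prop where
  /-- All elements outside of a small set have the Jordan type `lam`. -/
  few : Few {y | y ∈ c ∧ ∃ j : ℕ, blocks (rho y) l j ≠ lam j}
  /-- The kernels of all elements are at least as large as the generic ones. -/
  ker : ∀ y ∈ c, ∀ j : ℕ, ∑ m ∈ Finset.range j, lam m ≤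
    Module.finrank K (LinearMap.ker ((rho y - algebraMap K (Module.End K V) l) ^ j))
  /-- All elements which generate an open subgroup with `A` contain the Jordan type `lam`. -/
  young : ∀ A : Subgroup P, A.Normal → ActsSemisimply (rho '' (A : Set P)) →
    ∀ x ∈ c, GenerateOpen A x → ∀ j : ℕ, lam j ≤ blocks (rho x) l j

variable {I E P : Type*} {K V : I → Type*} [Field E] [∀ i, Field (K i)] [∀ i, Algebra E (K i)]
  [∀ i, IsAlgClosed (K i)] [∀ i, CharZero (K i)] [∀ i, TopologicalSpace (K i)]
  [∀ i, IsTopologicalRing (K i)] [∀ i, T2Space (K i)] [∀ i, AddCommGroup (V i)]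
  [∀ i, Module (K i) (V i)] [∀ i, FiniteDimensional (K i) (V i)] [Group P] [TopologicalSpace P]
  [IsTopologicalGroup P] [CompactSpace P] [TotallyDisconnectedSpace P]

/-- **One fibre decides.**  `rho i` are continuous representations of the profinite group `P`,
compatible with each other and with the integral `p`-adic representation `sigma` on the dense set
`Fr`. -/
theorem result (rho : ∀ i, P →* Module.End (K i) (V i))
    (cont : ∀ (i : I) (v : V i) (f : Module.Dual (K i) (V i)), Continuous fun x => f (rho i x v))
    (Fr : Set P) (dense : Dense Fr) (poly : P → E[X])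
    (compatible : ∀ x ∈ Fr, ∀ i, (rho i x).charpoly = (poly x).map (algebraMap E (K i)))
    {p r : ℕ} [Fact p.Prime] [Algebra E ℚ_[p]] (sigma : P →* Matrix (Fin r) (Fin r) ℤ_[p])
    (sigma_cont : Continuous sigma)
    (sigma_compatible : ∀ x ∈ Fr,
      (sigma x).charpoly.map PadicInt.Coe.ringHom = (poly x).map (algebraMap E ℚ_[p])) :
    ∃ N : Subgroup P, N.Normal ∧ IsOpen (N : Set P) ∧
      (∀ (i : I) (c : P ⧸ N) (l : K i), ∃ lam : ℕ → ℕ,
        IsGeneric (rho i) {y | (y : P ⧸ N) = c} l lam) ∧
      ∀ (A : Subgroup P) (z : P), A.Normal → (∀ i, ActsSemisimply (rho i '' (A : Set P))) →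
        (A ⊔ Subgroup.zpowers z).topologicalClosure = ⊤ →
          ∀ w : ℕ, ∃ C : ℕ, ∀ n, 0 < n → ∀ m,
            numMod sigma m {x | x ∈ Fr ∧ (∃ a ∈ A, x = z ^ n * a) ∧
              ∃ i, ¬ SemisimpleAt w (rho i x) ∧
                ∃ y : P, (y : P ⧸ N) = x ∧ GenerateOpen A y ∧ SemisimpleAt w (rho i y)} * p ^ m ≤
              C * numMod sigma m A := by
  obtain ⟨N, hNn, hNo, lam, h1, h2⟩ :=
    Pool.Agent.Helper44.PS.linear_law3 rho cont dense poly compatible sigma sigma_cont
      sigma_compatible
  refine ⟨N, hNn, hNo, fun i c l => ⟨lam i c l, ?_⟩, fun A z hA hss hgen w => ?_⟩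
  · obtain ⟨h3, h4, h5⟩ := h1 i c l
    refine ⟨fun ε hε => ?_, fun y hy => h3 y hy, fun A hA hss x hx hopen =>
      (h5 A hA hss x hx hopen).1⟩
    obtain ⟨M, hM1, hM2, hM3⟩ := h4 ε hε
    refine ⟨M, hM1, hM2, ?_⟩
    have h6 : Nat.card {d : P ⧸ M // ∃ y ∈ {y | y ∈ {y : P | (y : P ⧸ N) = c} ∧
        ∃ j : ℕ, blocks (rho i y) l j ≠ lam i c l j}, (y : P ⧸ M) = d} =
        Set.ncard {d : P ⧸ M | ∃ y : P, (y : P ⧸ M) = d ∧ (y : P ⧸ N) = c ∧
          ∃ j : ℕ, blocks (rho i y) l j ≠ lam i c l j} := by
      rw [← Nat.card_coe_set_eq]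
      refine Nat.card_congr (Equiv.subtypeEquivRight fun d => ?_)
      exact ⟨fun ⟨y, ⟨h7, h8⟩, h9⟩ => ⟨y, h9, h7, h8⟩, fun ⟨y, h9, h7, h8⟩ => ⟨y, ⟨h7, h8⟩, h9⟩⟩
    rw [h6]
    exact hM3
  · have hcos : ∀ (n : ℕ) (x : P), (∃ a ∈ A, x = z ^ n * a) →
        x ∈ Pool.Agent.Helper44.PS.coset A (z ^ n) := by
      rintro n x ⟨a, ha, rfl⟩
      change (z ^ n)⁻¹ * (z ^ n * a) ∈ A
      rwa [inv_mul_cancel_left]
    rcases Nat.eq_zero_or_pos w with rfl | hw
    · -- all eigenvalues: the subfamily of the semisimple representations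
      let J : Type _ := {i : I // ActsSemisimply (rho i '' (Set.univ : Set P))}
      obtain ⟨C, hC⟩ := Pool.Agent.Helper44.PS.linear_saving (I := J) (K := fun j => K j.1)
        (V := fun j => V j.1) (fun j => rho j.1) (fun j => cont j.1) dense poly
        (fun x hx j => compatible x hx j.1) (fun j => j.2) sigma sigma_cont sigma_compatible
        (A := A) (z := z) hgen
      refine ⟨C, fun n hn m => le_trans (Nat.mul_le_mul_right _ ?_) (hC n hn m)⟩
      refine Set.ncard_le_ncard (Set.image_mono ?_) (Set.toFinite _)
      rintro x ⟨hx, hxa, i, hns, y, _, hyo, hys⟩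
      have hyss : (rho i y).IsSemisimple := by
        rw [Pool.Agent.Helper44.PS.isSemisimple_iff_nb]
        exact fun k => hys k (pow_zero k)
      have hi : ActsSemisimply (rho i '' (Set.univ : Set P)) :=
        Pool.Agent.Helper40.ZO.semisimple_of_sup (rho i) (cont i) (hss i)
          (Pool.Agent.Helper40.ZO.zpowers_semisimple (rho i) hyss) hyo
      refine ⟨hx, hcos n x hxa, ⟨i, hi⟩, fun hcon => hns fun k _ => ?_⟩
      exact (Pool.Agent.Helper44.PS.isSemisimple_iff_nb _).mp hcon k
    · obtain ⟨C, hC⟩ := h2 A z hA hgen w hw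
      refine ⟨C, fun n hn m => le_trans (Nat.mul_le_mul_right _ ?_) (hC n hn m)⟩
      refine Set.ncard_le_ncard (Set.image_mono ?_) (Set.toFinite _)
      rintro x ⟨hx, hxa, i, hns, y, hyx, hyo, hys⟩
      refine ⟨hx, hcos n x hxa, i, fun k hk => ?_, ?_⟩
      · have h6 := ((h1 i (x : P ⧸ N) k).2.2 A hA (hss i) y hyx hyo).1 1
        have h7 : blocks (rho i y) k 1 = 0 := hys k hk
        exact Nat.le_zero.mp (le_trans h6 (le_of_eq h7))
      · unfold SemisimpleAt at hns
        push Not at hns
        exact hns

end Pool.Agent.Results.MP_1fe969_ag.OneFibre
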